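import Pool.Agent.R332.FM.CLM

/-!
# Riemannian metrics on flat F-manifolds from linear `a₀` (MP_cfa256_gt, Q1)

Let `u^{i(α)}` be David-Hertling coordinates of a regular F-manifold with Euler vector field, with
Jordan blocks of sizes `m α`, let `a₀ = Σ c_k u^k` be linear, and let `∇` be a torsion-free
connection near `p` with `∇ e = 0` and `d_∇ [(E - a₀ e) ∘] = 0`.  Then the equation `(⋆)` has a
non-degenerate invariant solution near `p` if and only if `a₀` involves only the main variables.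
The theorem covers real (smooth) and complex (holomorphic) data, all dimensions and all Jordan
block structures.
-/

set_option autoImplicit false

namespace Pool.Agent.Results.MP_cfa256_gt.LinearMetrics

open Finset Topology
open scoped ContDiff

variable {𝕜 : Type} [RCLike 𝕜] {r : ℕ} {m : Fin r → ℕ}

/-- Coordinates (and tangent vectors, in the coordinate frame): `u g i` is `u^{(i+1)(g)}`, the
`(i+1)`-st coordinate of the `g`-th block, `0 ≤ i < m g`. -/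
abbrev Vec (𝕜 : Type) {r : ℕ} (m : Fin r → ℕ) : Type := (g : Fin r) → Fin (m g) → 𝕜

/-- The product `X ∘ Y` of tangent vectors: `∂_{j(g)} ∘ ∂_{k(g)} = ∂_{(j+k)(g)}` (indices from `0`,
zero if `j + k ≥ m g`), and products of vectors of different blocks vanish. -/
def prod (X Y : Vec 𝕜 m) : Vec 𝕜 m := fun g k =>
  ∑ i : Fin (m g), ∑ j : Fin (m g), if (i : ℕ) + j = k then X g i * Y g j else 0

/-- The unit vector field `e`. -/
def unit : Vec 𝕜 m := fun _ k => if (k : ℕ) = 0 then 1 else 0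

/-- `p` is a regular point: the operator of multiplication by the Euler vector field `E = u` has one
Jordan block for each of its distinct eigenvalues `p g 0`. -/
def Regular (p : Vec 𝕜 m) : Prop :=
  (∀ g a, ∀ (hg : 0 < m g) (ha : 0 < m a), g ≠ a → p g ⟨0, hg⟩ ≠ p a ⟨0, ha⟩) ∧
  ∀ g, ∀ h : 1 < m g, p g ⟨1, h⟩ ≠ 0

/-- The linear function `a₀ = Σ c_k u^k`. -/
def a0 (c u : Vec 𝕜 m) : 𝕜 := ∑ g, ∑ i, c g i * u g i

/-- The endomorphism field `A = (E - a₀ e) ∘`, where `E = u` is the Euler vector field. -/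
def endo (c u Y : Vec 𝕜 m) : Vec 𝕜 m := prod (u - a0 c u • unit) Y

/-- The derivative at `u`, in the direction `X`, of a vector field. -/
noncomputable def derV (F : Vec 𝕜 m → Vec 𝕜 m) (u X : Vec 𝕜 m) : Vec 𝕜 m := fderiv 𝕜 F u X

/-- The derivative at `u`, in the direction `X`, of a function. -/
noncomputable def derF (F : Vec 𝕜 m → 𝕜) (u X : Vec 𝕜 m) : 𝕜 := fderiv 𝕜 F u X

/-- `(∇_X A) Y = ∇_X (A Y) - A (∇_X Y)` for constant vector fields `X`, `Y`, where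
`∇_X Y = D_X Y + Γ(X, Y)`. -/
noncomputable def nablaA (c : Vec 𝕜 m) (Γ : Vec 𝕜 m → Vec 𝕜 m → Vec 𝕜 m → Vec 𝕜 m)
    (u X Y : Vec 𝕜 m) : Vec 𝕜 m :=
  derV (fun v => endo c v Y) u X + Γ u X (endo c u Y) - endo c u (Γ u X Y)

/-- At the point `u`, the connection `∇ = D + Γ` is torsion free, `∇ e = 0`, and
`d_∇ [(E - a₀ e) ∘] = 0`. -/
structure IsConn (c : Vec 𝕜 m) (Γ : Vec 𝕜 m → Vec 𝕜 m → Vec 𝕜 m → Vec 𝕜 m)
    (u : Vec 𝕜 m) : Prop where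
  linear : ∀ X, IsLinearMap 𝕜 (Γ u X)
  torsion_free : ∀ X Y, Γ u X Y = Γ u Y X
  unit_parallel : ∀ X, Γ u X unit = 0
  d_nabla : ∀ X Y, nablaA c Γ u X Y - nablaA c Γ u Y X = 0

/-- `dθ(X, Y)` for the counit `θ = g(e, ·)` and constant vector fields `X`, `Y`. -/
noncomputable def dTheta (g : Vec 𝕜 m → Vec 𝕜 m → Vec 𝕜 m → 𝕜) (u X Y : Vec 𝕜 m) : 𝕜 :=
  derF (fun v => g v unit Y) u X - derF (fun v => g v unit X) u Y

/-- `(∇_X g)(Y, Z)` for constant vector fields. -/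
noncomputable def nablaG (Γ : Vec 𝕜 m → Vec 𝕜 m → Vec 𝕜 m → Vec 𝕜 m)
    (g : Vec 𝕜 m → Vec 𝕜 m → Vec 𝕜 m → 𝕜) (u X Y Z : Vec 𝕜 m) : 𝕜 :=
  derF (fun v => g v Y Z) u X - g u (Γ u X Y) Z - g u Y (Γ u X Z)

/-- At the point `u`, `g` is a non-degenerate symmetric invariant bilinear form which satisfies
`(⋆)`. -/
structure IsSol (Γ : Vec 𝕜 m → Vec 𝕜 m → Vec 𝕜 m → Vec 𝕜 m)
    (g : Vec 𝕜 m → Vec 𝕜 m → Vec 𝕜 m → 𝕜) (u : Vec 𝕜 m) : Prop where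
  linear : ∀ X, IsLinearMap 𝕜 (g u X)
  symm : ∀ X Y, g u X Y = g u Y X
  nondeg : ∀ X, (∀ Y, g u X Y = 0) → X = 0
  invariant : ∀ X Y Z, g u (prod X Y) Z = g u (prod X Z) Y
  star : ∀ X Y Z, nablaG Γ g u X Y Z =
    1 / 2 * dTheta g u (prod X Y) Z + 1 / 2 * dTheta g u (prod X Z) Y

/-- `(⋆)` has a non-degenerate invariant solution (a smooth, resp. holomorphic, metric) near `p`. -/
def HasSolution (Γ : Vec 𝕜 m → Vec 𝕜 m → Vec 𝕜 m → Vec 𝕜 m) (p : Vec 𝕜 m) : Prop :=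
  ∃ U : Set (Vec 𝕜 m), IsOpen U ∧ p ∈ U ∧ ∃ g : Vec 𝕜 m → Vec 𝕜 m → Vec 𝕜 m → 𝕜,
    (∀ Y Z, ContDiffOn 𝕜 ∞ (fun u => g u Y Z) U) ∧ ∀ u ∈ U, IsSol Γ g u


section proof

open Pool.Agent.R332.FM

theorem bil_mk {W : Type} [NormedAddCommGroup W] [NormedSpace 𝕜 W] (b : Vec 𝕜 m → Vec 𝕜 m → W)
    (h1 : ∀ X, IsLinearMap 𝕜 (b X)) (h2 : ∀ X Y, b X Y = b Y X) :
    ∃ B : Vec 𝕜 m →L[𝕜] Vec 𝕜 m →L[𝕜] W, ∀ X Y, B X Y = b X Y := by
  obtain ⟨B, hB⟩ := CLM.toCB_aux (𝕜 := 𝕜) (m := m) (LinearMap.mk₂ 𝕜 b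
    (fun X Y Z => by rw [h2, (h1 Z).map_add, h2 Z, h2 Z])
    (fun t X Y => by rw [h2, (h1 Y).map_smul, h2 Y])
    (fun X Y Z => by rw [(h1 X).map_add])
    (fun t X Y => by rw [(h1 X).map_smul]))
  exact ⟨B, hB⟩

open Classical in
/-- a symmetric bilinear map as a continuous bilinear map (zero for other maps) -/
noncomputable def mkB {W : Type} [NormedAddCommGroup W] [NormedSpace 𝕜 W]
    (b : Vec 𝕜 m → Vec 𝕜 m → W) : Vec 𝕜 m →L[𝕜] Vec 𝕜 m →L[𝕜] W :=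
  if h : ∃ B : Vec 𝕜 m →L[𝕜] Vec 𝕜 m →L[𝕜] W, ∀ X Y, B X Y = b X Y then h.choose else 0

theorem mkB_apply {W : Type} [NormedAddCommGroup W] [NormedSpace 𝕜 W]
    {b : Vec 𝕜 m → Vec 𝕜 m → W}
    (h1 : ∀ X, IsLinearMap 𝕜 (b X)) (h2 : ∀ X Y, b X Y = b Y X) (X Y : Vec 𝕜 m) :
    mkB (𝕜 := 𝕜) b X Y = b X Y := by
  have h := bil_mk b h1 h2
  unfold mkB
  rw [dif_pos h]
  exact h.choose_spec X Y

theorem conn_to {c : Vec 𝕜 m} {Γ : Vec 𝕜 m → Vec 𝕜 m → Vec 𝕜 m → Vec 𝕜 m} {u : Vec 𝕜 m}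
    (h : IsConn c Γ u) : CLM.IsConn c (fun u => mkB (𝕜 := 𝕜) (Γ u)) u := by
  have ha : ∀ X Y, mkB (𝕜 := 𝕜) (Γ u) X Y = Γ u X Y := mkB_apply h.linear h.torsion_free
  refine ⟨fun X Y => ?_, fun X => ?_, fun X Y => ?_⟩
  · show mkB (𝕜 := 𝕜) (Γ u) X Y = mkB (𝕜 := 𝕜) (Γ u) Y X
    rw [ha, ha, h.torsion_free]
  · show mkB (𝕜 := 𝕜) (Γ u) X unit = 0
    rw [ha, h.unit_parallel]
  · have e : ∀ X Y, CLM.nablaA c (fun u => mkB (𝕜 := 𝕜) (Γ u)) u X Y = nablaA c Γ u X Y := by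
      intro X Y
      show fderiv 𝕜 (fun v => endo c v Y) u X + mkB (𝕜 := 𝕜) (Γ u) X (endo c u Y) -
        endo c u (mkB (𝕜 := 𝕜) (Γ u) X Y) = _
      rw [ha, ha]
      rfl
    rw [e, e, h.d_nabla]

theorem conn_from {c : Vec 𝕜 m} {Γ : Vec 𝕜 m → Vec 𝕜 m →L[𝕜] Vec 𝕜 m →L[𝕜] Vec 𝕜 m}
    {u : Vec 𝕜 m} (h : CLM.IsConn c Γ u) : IsConn c (fun u X Y => Γ u X Y) u where
  linear X := (Γ u X).toLinearMap.isLinear
  torsion_free := h.torsion_free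
  unit_parallel := h.unit_parallel
  d_nabla := h.d_nabla

theorem sol_iff {c p : Vec 𝕜 m} {Γ : Vec 𝕜 m → Vec 𝕜 m → Vec 𝕜 m → Vec 𝕜 m}
    (hΓ : ∀ᶠ u in 𝓝 p, IsConn c Γ u) :
    HasSolution Γ p ↔ CLM.HasSolution (fun u => mkB (𝕜 := 𝕜) (Γ u)) p := by
  obtain ⟨V, hVsub, hV, hpV⟩ := eventually_nhds_iff.1 hΓ
  have hΓV : ∀ u ∈ V, ∀ X Y, mkB (𝕜 := 𝕜) (Γ u) X Y = Γ u X Y := fun u hu =>
    mkB_apply (hVsub u hu).linear (hVsub u hu).torsion_free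
  constructor
  · rintro ⟨U, hU, hpU, g, hg, hsol⟩
    have hgU : ∀ u ∈ U, ∀ X Y, mkB (𝕜 := 𝕜) (g u) X Y = g u X Y := fun u hu =>
      mkB_apply (hsol u hu).linear (hsol u hu).symm
    refine ⟨U ∩ V, hU.inter hV, ⟨hpU, hpV⟩, fun u => mkB (𝕜 := 𝕜) (g u), ?_, ?_⟩
    · refine contDiffOn_clm_apply.2 fun Y => contDiffOn_clm_apply.2 fun Z => ?_
      exact ((hg Y Z).mono Set.inter_subset_left).congr fun u hu => hgU u hu.1 Y Z
    · rintro u ⟨huU, huV⟩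
      have ed : ∀ Y Z, fderiv 𝕜 (fun v => mkB (𝕜 := 𝕜) (g v) Y Z) u =
          fderiv 𝕜 (fun v => g v Y Z) u := by
        intro Y Z
        apply Filter.EventuallyEq.fderiv_eq
        filter_upwards [hU.mem_nhds huU] with v hv
        exact hgU v hv Y Z
      have h := hsol u huU
      refine ⟨fun X Y => ?_, fun X hX => ?_, fun X Y Z => ?_, fun X Y Z => ?_⟩
      · show mkB (𝕜 := 𝕜) (g u) X Y = mkB (𝕜 := 𝕜) (g u) Y X
        rw [hgU u huU, hgU u huU, h.symm]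
      · apply h.nondeg X
        intro Y
        rw [← hgU u huU]
        exact hX Y
      · show mkB (𝕜 := 𝕜) (g u) (prod X Y) Z = mkB (𝕜 := 𝕜) (g u) (prod X Z) Y
        rw [hgU u huU, hgU u huU, h.invariant]
      · have e1 : CLM.nablaG (fun u => mkB (𝕜 := 𝕜) (Γ u)) (fun u => mkB (𝕜 := 𝕜) (g u)) u X Y Z =
            nablaG Γ g u X Y Z := by
          show fderiv 𝕜 (fun v => mkB (𝕜 := 𝕜) (g v) Y Z) u X -
            mkB (𝕜 := 𝕜) (g u) (mkB (𝕜 := 𝕜) (Γ u) X Y) Z -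
            mkB (𝕜 := 𝕜) (g u) Y (mkB (𝕜 := 𝕜) (Γ u) X Z) = _
          rw [ed, hΓV u huV, hΓV u huV, hgU u huU, hgU u huU]
          rfl
        have e2 : ∀ A B, CLM.dTheta (fun u => mkB (𝕜 := 𝕜) (g u)) u A B = dTheta g u A B := by
          intro A B
          show fderiv 𝕜 (fun v => mkB (𝕜 := 𝕜) (g v) unit B) u A -
            fderiv 𝕜 (fun v => mkB (𝕜 := 𝕜) (g v) unit A) u B = _
          rw [ed, ed]
          rfl
        rw [e1, e2, e2]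
        exact h.star X Y Z
  · rintro ⟨U, hU, hpU, g, hg, hsol⟩
    refine ⟨U ∩ V, hU.inter hV, ⟨hpU, hpV⟩, fun u X Y => g u X Y, ?_, ?_⟩
    · intro Y Z
      exact (contDiffOn_clm_apply.1 (contDiffOn_clm_apply.1 hg Y) Z).mono Set.inter_subset_left
    · rintro u ⟨huU, huV⟩
      have h := hsol u huU
      refine ⟨fun X => (g u X).toLinearMap.isLinear, h.symm, h.nondeg, h.invariant,
        fun X Y Z => ?_⟩
      have e1 : nablaG Γ (fun u X Y => g u X Y) u X Y Z =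
          CLM.nablaG (fun u => mkB (𝕜 := 𝕜) (Γ u)) g u X Y Z := by
        show fderiv 𝕜 (fun v => g v Y Z) u X - g u (Γ u X Y) Z - g u Y (Γ u X Z) =
          fderiv 𝕜 (fun v => g v Y Z) u X - g u (mkB (𝕜 := 𝕜) (Γ u) X Y) Z -
            g u Y (mkB (𝕜 := 𝕜) (Γ u) X Z)
        rw [hΓV u huV, hΓV u huV]
      rw [e1]
      exact h.star X Y Z

end proof

/-- The answer to Q1 is positive. -/
theorem result (𝕜 : Type) [RCLike 𝕜] (r : ℕ) (m : Fin r → ℕ) (hm : ∀ g, 0 < m g)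
    (p : Vec 𝕜 m) (hp : Regular p) (c : Vec 𝕜 m) :
    (∀ Γ : Vec 𝕜 m → Vec 𝕜 m → Vec 𝕜 m → Vec 𝕜 m, (∀ᶠ u in 𝓝 p, IsConn c Γ u) →
      (HasSolution Γ p ↔ ∀ g (i : Fin (m g)), (i : ℕ) ≠ 0 → c g i = 0)) ∧
    ((∀ g (i : Fin (m g)), (i : ℕ) ≠ 0 → c g i = 0) →
      ∃ Γ : Vec 𝕜 m → Vec 𝕜 m → Vec 𝕜 m → Vec 𝕜 m, ∀ᶠ u in 𝓝 p, IsConn c Γ u) := by
  obtain ⟨h1, h2⟩ := Pool.Agent.R332.FM.CLM.result0 𝕜 r m hm p hp c
  refine ⟨fun Γ hΓ => ?_, fun hc => ?_⟩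
  · rw [sol_iff hΓ]
    exact h1 _ (hΓ.mono fun u hu => conn_to hu)
  · obtain ⟨Γ, hΓ⟩ := h2 hc
    exact ⟨fun u X Y => Γ u X Y, hΓ.mono fun u hu => conn_from hu⟩


end Pool.Agent.Results.MP_cfa256_gt.LinearMetrics
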